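import Pool.Agent.H3.RE.Lin

/-!
Theorem A (helper3): size versus degree for derivations whose lines are sums of products of affine forms.

`K` is a subspace of the functions which contains the axioms and is closed under multiplication in low degree (what
polynomial calculus derives, or the kernel of an Alekhnovich-Razborov operator).  If no nonzero combination of the monomials
in `U` is in `K`, then a derivation of `1` uses at least `|U| / ∑_{i ≤ D} C(n - m, i)` different affine subspaces.
-/

set_option autoImplicit false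
open scoped Classical
open Finset

namespace H3RE

variable {n : ℕ}

/-- `A` is an affine subspace or empty -/
def IsAff (A : Set (Fin n → ZMod 2)) : Prop :=
  A = ∅ ∨ ∃ (W : Submodule (ZMod 2) (Fin n → ZMod 2)) (x0 : Fin n → ZMod 2), A = {x | x - x0 ∈ W}

/-- `1, …, N` is a derivation from the axioms `C` with lines and multipliers in `Lam AA t d` -/
def IsDer {ι : Type} [Fintype ι] (C : ι → Fn n) (AA : Set (Set (Fin n → ZMod 2))) (t d N : ℕ) (G : ℕ → Fn n) : Prop :=
  ∀ i < N, G i ∈ Lam AA t d ∧ ∃ (h : ι → Fn n) (h' : ℕ → Fn n),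
    (∀ j, h j ∈ Lam AA t d) ∧ (∀ l, h' l ∈ Lam AA t d) ∧
    G i = ∑ j, h j * C j + ∑ l ∈ Finset.range i, h' l * G l

theorem wide_or (m : ℕ) {A : Set (Fin n → ZMod 2)} (hA : IsAff A) : Wide m A ∨ ind A ∈ Pd n m := by
  rcases hA with rfl | ⟨W, x0, rfl⟩
  · right
    have h : (ind ∅ : Fn n) = 0 := by
      funext x
      unfold ind
      rw [if_neg (Set.notMem_empty x)]
      rfl
    rw [h]
    exact Submodule.zero_mem _
  · by_cases h : Module.finrank (ZMod 2) W + m ≤ n
    · left
      exact ⟨W, x0, fun x hx => hx, h⟩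
    · right
      exact ind_mem W x0 (by omega)

/-- on the support of `F` the members of `Lam AA t d` have low degree -/
theorem lam_low {m t d : ℕ} {AA : Set (Set (Fin n → ZMod 2))} (hA : ∀ A ∈ AA, IsAff A) {F : Fn n}
    (hF : ∀ A ∈ AA, Wide m A → ∀ x ∈ A, F x = 0) {h : Fn n} (hh : h ∈ Lam AA t d) :
    ∃ h' ∈ Pd n (d + t * m), F * h = F * h' := by
  unfold Lam at hh
  induction hh using Submodule.span_induction with
  | mem g hg =>
    obtain ⟨q, hq, B, hB, hBt, rfl⟩ := hg
    by_cases hw : ∃ A ∈ B, Wide m A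
    · obtain ⟨A, hAB, hAw⟩ := hw
      refine ⟨0, Submodule.zero_mem _, ?_⟩
      funext x
      simp only [Pi.mul_apply, Pi.zero_apply, mul_zero]
      by_cases hx : x ∈ A
      · rw [hF A (hB hAB) hAw x hx, zero_mul]
      · have h0 : (∏ A ∈ B, ind A) x = 0 := by
          rw [Finset.prod_apply]
          apply Finset.prod_eq_zero hAB
          unfold ind
          rw [if_neg hx]
        rw [h0, mul_zero, mul_zero]
    · push Not at hw
      refine ⟨q * ∏ A ∈ B, ind A, ?_, rfl⟩
      refine pd_mono (Nat.add_le_add_left ?_ d) (pd_mul hq (pd_prod B ind (fun _ => m) ?_))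
      · rw [Finset.sum_const, smul_eq_mul]
        exact Nat.mul_le_mul_right m hBt
      · intro A hAB
        rcases wide_or m (hA A (hB hAB)) with h1 | h1
        · exact absurd h1 (hw A hAB)
        · exact h1
  | zero => exact ⟨0, Submodule.zero_mem _, rfl⟩
  | add x y _ _ hx hy =>
    obtain ⟨a, ha, ha2⟩ := hx
    obtain ⟨b, hb, hb2⟩ := hy
    exact ⟨a + b, Submodule.add_mem _ ha hb, by rw [mul_add, mul_add, ha2, hb2]⟩
  | smul c x _ hx =>
    obtain ⟨a, ha, ha2⟩ := hx
    exact ⟨c • a, Submodule.smul_mem _ c ha, by rw [mul_smul_comm, mul_smul_comm, ha2]⟩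

theorem coreA {N m D D' t d k : ℕ} {ι : Type} [Fintype ι] (C : ι → Fn n) (hCk : ∀ j, C j ∈ Pd n k)
    (K : Submodule (ZMod 2) (Fn n)) (hCK : ∀ j, C j ∈ K)
    (hmul : ∀ (g h : Fn n) (a e : ℕ), g ∈ K → g ∈ Pd n a → h ∈ Pd n e → a + e ≤ D' → h * g ∈ K)
    (U : Finset (Finset (Fin n))) (hU : ∀ u ∈ U, u.card ≤ D)
    (hUK : ∀ F ∈ Submodule.span (ZMod 2) {g : Fn n | ∃ u ∈ U, g = mo u}, F ∈ K → F = 0)
    (hD1 : D + 2 * (d + t * m) ≤ D') (hD2 : D + (d + t * m) + k ≤ D')
    (AA : Set (Set (Fin n → ZMod 2))) (hfin : AA.Finite) (hA : ∀ A ∈ AA, IsAff A)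
    (G : ℕ → Fn n) (hN : 1 ≤ N) (hG : IsDer C AA t d N G) (hlast : G (N - 1) = 1) :
    U.card ≤ AA.ncard * ∑ i ∈ Finset.range (D + 1), (n - m).choose i := by
  by_contra hcon
  rw [not_le] at hcon
  have hsub : {A ∈ AA | Wide m A} ⊆ AA := fun A h => h.1
  have hc : ({A ∈ AA | Wide m A} : Set (Set (Fin n → ZMod 2))).ncard *
      ∑ i ∈ Finset.range (D + 1), (n - m).choose i < U.card :=
    lt_of_le_of_lt (Nat.mul_le_mul_right _ (Set.ncard_le_ncard hsub hfin)) hcon
  obtain ⟨F, hF0, hFU, hFw⟩ := wide_lemma U hU _ (hfin.subset hsub) (fun A h => h.2) hc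
  have hFv : ∀ A ∈ AA, Wide m A → ∀ x ∈ A, F x = 0 := fun A h1 h2 => hFw A ⟨h1, h2⟩
  have hFD : F ∈ Pd n D := by
    refine Submodule.span_le.2 ?_ hFU
    rintro _ ⟨u, hu, rfl⟩
    exact mo_mem (hU u hu)
  have key : ∀ i, i < N → F * G i ∈ K ∧ F * G i ∈ Pd n (D + (d + t * m)) := by
    intro i
    induction i using Nat.strong_induction_on with
    | _ i ih =>
      intro hi
      obtain ⟨hGi, h, h', hh, hh', hsum⟩ := hG i hi
      constructor
      · rw [hsum, mul_add, Finset.mul_sum, Finset.mul_sum]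
        apply Submodule.add_mem
        · apply Submodule.sum_mem
          intro j _
          obtain ⟨a, ha, ha2⟩ := lam_low hA hFv (hh j)
          rw [← mul_assoc, ha2]
          exact hmul (C j) (F * a) k (D + (d + t * m)) (hCK j) (hCk j) (pd_mul hFD ha) (by omega)
        · apply Submodule.sum_mem
          intro l hl
          have hli := Finset.mem_range.1 hl
          obtain ⟨a, ha, ha2⟩ := lam_low hA hFv (hh' l)
          have h1 : F * (h' l * G l) = a * (F * G l) := by
            rw [← mul_assoc, ha2]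
            ring
          rw [h1]
          exact hmul (F * G l) a (D + (d + t * m)) (d + t * m) (ih l hli (hli.trans hi)).1
            (ih l hli (hli.trans hi)).2 ha (by omega)
      · obtain ⟨a, ha, ha2⟩ := lam_low hA hFv hGi
        rw [ha2]
        exact pd_mul hFD ha
  have h1 := (key (N - 1) (by omega)).1
  rw [hlast, mul_one] at h1
  exact hF0 (hUK F hFU h1)

end H3RE
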