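import Mathlib

/-!
Definitions for project MP_28250c_RE (helper3; no row): exponential lower bounds for unrestricted resolution over
parities.  Paper proof: /team-store/H3_ResXorExp.md.

`F = ZMod 2`; functions on the cube `Fin n → F` with values in `F` are combinations of the monomials `mo u`.
-/

set_option autoImplicit false
open scoped Classical
open Finset

namespace H3RE

/-- functions on the cube with values in `F_2` -/
abbrev Fn (n : ℕ) := (Fin n → ZMod 2) → ZMod 2

/-- monomials -/
def mo {n : ℕ} (u : Finset (Fin n)) : Fn n := fun x => ∏ i ∈ u, x i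

/-- functions of degree at most `D` -/
def Pd (n D : ℕ) : Submodule (ZMod 2) (Fn n) :=
  Submodule.span (ZMod 2) {g | ∃ u : Finset (Fin n), u.card ≤ D ∧ g = mo u}

/-! ### clauses and closure -/

section
variable {n : ℕ} {ι : Type} [Fintype ι]

/-- the variables of a set of clauses -/
def vr (S : ι → Finset (Fin n)) (J : Finset ι) : Finset (Fin n) := J.biUnion S

/-- `h_T(J) = |S(J) \ T| - c0 |J|` -/
def hh (S : ι → Finset (Fin n)) (c0 : ℕ) (T : Finset (Fin n)) (J : Finset ι) : ℤ :=
  ((vr S J \ T).card : ℤ) - c0 * J.card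

/-- `J` minimises `h_T` among the sets of at most `s` clauses -/
def IsMn (S : ι → Finset (Fin n)) (c0 s : ℕ) (T : Finset (Fin n)) (J : Finset ι) : Prop :=
  J.card ≤ s ∧ ∀ J' : Finset ι, J'.card ≤ s → hh S c0 T J ≤ hh S c0 T J'

/-- the closure: the union of all minimisers -/
noncomputable def Cl (S : ι → Finset (Fin n)) (c0 s : ℕ) (T : Finset (Fin n)) : Finset ι :=
  (univ.filter fun J => IsMn S c0 s T J).biUnion id

/-- expansion -/
def Ex (S : ι → Finset (Fin n)) (c0 g s : ℕ) : Prop :=
  ∀ J : Finset ι, J.card ≤ s → (c0 + g) * J.card ≤ (vr S J).card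

/-- good sets of variables -/
def Gd (S : ι → Finset (Fin n)) (c0 s : ℕ) (T : Finset (Fin n)) : Prop :=
  ∀ J : Finset ι, J.Nonempty → J.card ≤ s → 0 < hh S c0 T J

/-- the clause with variables `S` and signs `b` is false at `x` iff `x = b` on `S` -/
def Fal (S : Finset (Fin n)) (b x : Fin n → ZMod 2) : Prop := ∀ i ∈ S, x i = b i

/-- indicator function of the false set of a clause -/
noncomputable def fa (S : Finset (Fin n)) (b : Fin n → ZMod 2) : Fn n := fun x => if Fal S b x then 1 else 0

/-- the ideal of a set `J` of clauses: the functions which vanish at all points falsifying no clause of `J` -/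
def IJ (S : ι → Finset (Fin n)) (b : ι → Fin n → ZMod 2) (J : Finset ι) : Submodule (ZMod 2) (Fn n) where
  carrier := {g | ∀ x, (∀ j ∈ J, ¬ Fal (S j) (b j) x) → g x = 0}
  add_mem' := by
    intro f g hf hg x hx
    rw [Pi.add_apply, hf x hx, hg x hx, add_zero]
  zero_mem' := fun x _ => rfl
  smul_mem' := by
    intro a f hf x hx
    rw [Pi.smul_apply, hf x hx, smul_zero]

end

/-! ### normal forms -/

section
variable {n : ℕ}

/-- the weight which orders the monomials -/
def wt (u : Finset (Fin n)) : ℕ := u.card * 2 ^ n + ∑ i ∈ u, 2 ^ (i : ℕ)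

/-- the span of the monomials below `u` -/
def lo (u : Finset (Fin n)) : Submodule (ZMod 2) (Fn n) :=
  Submodule.span (ZMod 2) {g | ∃ v : Finset (Fin n), wt v < wt u ∧ g = mo v}

/-- the monomials that are irreducible modulo `K` -/
def Irr (K : Submodule (ZMod 2) (Fn n)) : Set (Finset (Fin n)) := {u | mo u ∉ K ⊔ lo u}

/-- the span of the irreducible monomials -/
def Sp (K : Submodule (ZMod 2) (Fn n)) : Submodule (ZMod 2) (Fn n) :=
  Submodule.span (ZMod 2) {g | ∃ v ∈ Irr K, g = mo v}

/-- `N` is the normal form map of `K` -/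
def IsNf (K : Submodule (ZMod 2) (Fn n)) (N : Fn n →ₗ[ZMod 2] Fn n) : Prop :=
  (∀ g, g - N g ∈ K) ∧ ∀ g, N g ∈ Sp K

/-- the normal form map of `K` -/
noncomputable def Nf (K : Submodule (ZMod 2) (Fn n)) : Fn n →ₗ[ZMod 2] Fn n :=
  if h : ∃ N, IsNf K N then h.choose else 0

/-- `R` is an Alekhnovich-Razborov operator -/
def IsR {ι : Type} [Fintype ι] (S : ι → Finset (Fin n)) (b : ι → Fin n → ZMod 2) (c0 s : ℕ)
    (R : Fn n →ₗ[ZMod 2] Fn n) : Prop :=
  ∀ u, R (mo u) = Nf (IJ S b (Cl S c0 s u)) (mo u)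

end

/-! ### affine subspaces and derivations -/

section
variable {n : ℕ}

/-- `A` is contained in an affine subspace of codimension `≥ m` -/
def Wide (m : ℕ) (A : Set (Fin n → ZMod 2)) : Prop :=
  ∃ (W : Submodule (ZMod 2) (Fin n → ZMod 2)) (x0 : Fin n → ZMod 2),
    (∀ x ∈ A, x - x0 ∈ W) ∧ Module.finrank (ZMod 2) W + m ≤ n

/-- the indicator function of `A` -/
noncomputable def ind (A : Set (Fin n → ZMod 2)) : Fn n := fun x => if x ∈ A then 1 else 0

/-- sums of products of a polynomial of degree `≤ d` and at most `t` indicator functions of members of `AA` -/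
def Lam (AA : Set (Set (Fin n → ZMod 2))) (t d : ℕ) : Submodule (ZMod 2) (Fn n) :=
  Submodule.span (ZMod 2)
    {g | ∃ q ∈ Pd n d, ∃ B : Finset (Set (Fin n → ZMod 2)), (B : Set (Set (Fin n → ZMod 2))) ⊆ AA ∧
      B.card ≤ t ∧ g = q * ∏ A ∈ B, ind A}

end

end H3RE
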