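import Pool.Agent.H3.RE.Pdr

/-!
The polynomial method (helper3): few affine subspaces of large codimension are killed by a low degree polynomial with
prescribed monomials.
-/

set_option autoImplicit false
open scoped Classical
open Finset

namespace H3RE

variable {n : ℕ}

theorem wide_one {m : ℕ} (D : ℕ) {A : Set (Fin n → ZMod 2)} (hA : Wide m A) :
    ∃ (e : ℕ) (L : Fn n →ₗ[ZMod 2] Fn e), e ≤ n - m ∧ (∀ g ∈ Pd n D, L g ∈ Pd e D) ∧
      ∀ g, L g = 0 → ∀ x ∈ A, g x = 0 := by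
  obtain ⟨W, x0, hW, hf⟩ := hA
  set e := Module.finrank (ZMod 2) W with he
  let E : W ≃ₗ[ZMod 2] (Fin e → ZMod 2) := (Module.finBasis (ZMod 2) W).equivFun
  let φ : (Fin e → ZMod 2) → (Fin n → ZMod 2) := fun z => (E.symm z : Fin n → ZMod 2) + x0
  refine ⟨e, LinearMap.funLeft (ZMod 2) (ZMod 2) φ, by omega, fun g hg => ?_, fun g hg x hx => ?_⟩
  · refine pd_comp φ (fun i => ?_) hg
    exact pd_aff ((LinearMap.proj i ∘ₗ W.subtype) ∘ₗ E.symm.toLinearMap) (x0 i)
  · have h1 := congrFun hg (E ⟨x - x0, hW x hx⟩)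
    rw [LinearMap.funLeft_apply] at h1
    have h2 : φ (E ⟨x - x0, hW x hx⟩) = x := by
      change (E.symm (E ⟨x - x0, hW x hx⟩) : Fin n → ZMod 2) + x0 = x
      rw [LinearEquiv.symm_apply_apply]
      exact sub_add_cancel x x0
    rw [h2] at h1
    exact h1

theorem wide_lemma {m D : ℕ} (U : Finset (Finset (Fin n))) (hU : ∀ u ∈ U, u.card ≤ D)
    (AA : Set (Set (Fin n → ZMod 2))) (hfin : AA.Finite) (hw : ∀ A ∈ AA, Wide m A)
    (hc : AA.ncard * ∑ i ∈ Finset.range (D + 1), (n - m).choose i < U.card) :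
    ∃ F : Fn n, F ≠ 0 ∧ F ∈ Submodule.span (ZMod 2) {g : Fn n | ∃ u ∈ U, g = mo u} ∧
      ∀ A ∈ AA, ∀ x ∈ A, F x = 0 := by
  have h1 : ∀ A : hfin.toFinset, ∃ (e : ℕ) (L : Fn n →ₗ[ZMod 2] Fn e), e ≤ n - m ∧
      (∀ g ∈ Pd n D, L g ∈ Pd e D) ∧ ∀ g, L g = 0 → ∀ x ∈ (A : Set (Fin n → ZMod 2)), g x = 0 :=
    fun A => wide_one D (hw A (hfin.mem_toFinset.1 A.2))
  choose e L he hL hv using h1
  let T : (U → ZMod 2) →ₗ[ZMod 2] Fn n := Fintype.linearCombination (ZMod 2) (fun u : U => (mo u.1 : Fn n))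
  have hT : ∀ c, T c ∈ Pd n D := by
    intro c
    change Fintype.linearCombination (ZMod 2) (fun u : U => (mo u.1 : Fn n)) c ∈ Pd n D
    rw [Fintype.linearCombination_apply]
    exact Submodule.sum_mem _ fun u _ => Submodule.smul_mem _ _ (mo_mem (hU u.1 u.2))
  let M : (U → ZMod 2) →ₗ[ZMod 2] (∀ A : hfin.toFinset, Pd (e A) D) :=
    LinearMap.pi fun A => LinearMap.codRestrict (Pd (e A) D) ((L A) ∘ₗ T) (fun c => hL A _ (hT c))
  have hlt : Module.finrank (ZMod 2) (∀ A : hfin.toFinset, Pd (e A) D) <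
      Module.finrank (ZMod 2) (U → ZMod 2) := by
    rw [Module.finrank_pi_fintype, Module.finrank_fintype_fun_eq_card, Fintype.card_coe]
    refine lt_of_le_of_lt ?_ hc
    have h2 : AA.ncard = (Finset.univ : Finset hfin.toFinset).card := by
      rw [Finset.card_univ, Fintype.card_coe, Set.ncard_eq_toFinset_card AA hfin]
    rw [h2, ← smul_eq_mul, ← Finset.sum_const]
    apply Finset.sum_le_sum
    intro A _
    refine (finrank_pd_le (e A) D).trans ?_
    apply Finset.sum_le_sum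
    intro i _
    exact Nat.choose_le_choose i (he A)
  have hker := LinearMap.ker_ne_bot_of_finrank_lt (f := M) hlt
  obtain ⟨c, hc0, hcne⟩ := (Submodule.ne_bot_iff _).1 hker
  refine ⟨T c, ?_, ?_, ?_⟩
  · intro hT0
    apply hcne
    have hli : LinearIndependent (ZMod 2) (fun u : U => (mo u.1 : Fn n)) :=
      mo_li.comp (fun u : U => u.1) Subtype.val_injective
    funext u
    exact Fintype.linearIndependent_iff.1 hli c
      (by rw [← Fintype.linearCombination_apply]; exact hT0) u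
  · change Fintype.linearCombination (ZMod 2) (fun u : U => (mo u.1 : Fn n)) c ∈ _
    rw [Fintype.linearCombination_apply]
    exact Submodule.sum_mem _ fun u _ => Submodule.smul_mem _ _ (Submodule.subset_span ⟨u.1, u.2, rfl⟩)
  · intro A hA x hx
    have hA' : A ∈ hfin.toFinset := hfin.mem_toFinset.2 hA
    have h3 : M c ⟨A, hA'⟩ = 0 := by
      rw [LinearMap.mem_ker.1 hc0]
      rfl
    have h4 : L ⟨A, hA'⟩ (T c) = 0 := congrArg Subtype.val h3
    exact hv ⟨A, hA'⟩ (T c) h4 x hx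

end H3RE
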