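import Pool.Agent.H3.RE.Defs

/-!
Monomials on the cube over `F_2` (helper3): products, linear independence, spanning, the weight.
-/

set_option autoImplicit false
open scoped Classical
open Finset

namespace H3RE

variable {n : ℕ}

theorem z2 (a : ZMod 2) : a = 0 ∨ a = 1 := by
  revert a
  decide

theorem z2_sq (a : ZMod 2) : a * a = a := by
  revert a
  decide

theorem mo_empty : (mo (∅ : Finset (Fin n)) : Fn n) = 1 := by
  funext x
  simp [mo]

theorem mo_apply_eq_one {u : Finset (Fin n)} {x : Fin n → ZMod 2} :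
    mo u x = 1 ↔ ∀ i ∈ u, x i = 1 := by
  unfold mo
  constructor
  · intro h i hi
    rcases z2 (x i) with h0 | h1
    · rw [Finset.prod_eq_zero hi h0] at h
      exact absurd h (by decide)
    · exact h1
  · intro h
    exact Finset.prod_eq_one h

theorem mo_mul (u v : Finset (Fin n)) : (mo u * mo v : Fn n) = mo (u ∪ v) := by
  funext x
  have h : ∀ a b : ZMod 2, (a = 1 ↔ b = 1) → a = b := by decide
  apply h
  rw [Pi.mul_apply, mo_apply_eq_one]
  have h2 : ∀ a b : ZMod 2, a * b = 1 ↔ (a = 1 ∧ b = 1) := by decide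
  rw [h2, mo_apply_eq_one, mo_apply_eq_one]
  constructor
  · rintro ⟨h1, h2⟩ i hi
    rcases Finset.mem_union.1 hi with h | h
    · exact h1 i h
    · exact h2 i h
  · intro h
    exact ⟨fun i hi => h i (Finset.mem_union_left _ hi), fun i hi => h i (Finset.mem_union_right _ hi)⟩

/-- the point with support `u` -/
def pt (u : Finset (Fin n)) : Fin n → ZMod 2 := fun i => if i ∈ u then 1 else 0

theorem mo_pt (u v : Finset (Fin n)) : mo u (pt v) = if u ⊆ v then 1 else 0 := by
  by_cases h : u ⊆ v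
  · rw [if_pos h, mo_apply_eq_one]
    intro i hi
    unfold pt
    rw [if_pos (h hi)]
  · rw [if_neg h]
    obtain ⟨i, hi, hi2⟩ := Finset.not_subset.1 h
    unfold mo
    apply Finset.prod_eq_zero hi
    unfold pt
    rw [if_neg hi2]

theorem mo_li : LinearIndependent (ZMod 2) (fun u : Finset (Fin n) => (mo u : Fn n)) := by
  rw [Fintype.linearIndependent_iff]
  intro c hc
  by_contra hne
  push Not at hne
  obtain ⟨u0, hu0⟩ := hne
  obtain ⟨v, hv, hmin⟩ := Finset.exists_min_image (Finset.univ.filter fun u => c u ≠ 0) Finset.card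
    ⟨u0, by simp [hu0]⟩
  rw [Finset.mem_filter] at hv
  have h1 := congrFun hc (pt v)
  rw [Finset.sum_apply] at h1
  rw [Finset.sum_eq_single v] at h1
  · rw [Pi.smul_apply, mo_pt, if_pos (Finset.Subset.refl v), smul_eq_mul, mul_one] at h1
    exact hv.2 h1
  · intro w _ hw
    rw [Pi.smul_apply, mo_pt]
    by_cases hwv : w ⊆ v
    · have hlt : w.card < v.card := Finset.card_lt_card (lt_of_le_of_ne hwv hw)
      have hcw : c w = 0 := by
        by_contra hcw
        exact absurd (hmin w (by simp [hcw])) (not_le.2 hlt)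
      rw [hcw, zero_smul]
    · rw [if_neg hwv, smul_zero]
  · intro h
    exact absurd (Finset.mem_univ v) h

theorem mo_span : Submodule.span (ZMod 2) (Set.range fun u : Finset (Fin n) => (mo u : Fn n)) = ⊤ := by
  apply LinearIndependent.span_eq_top_of_card_eq_finrank' mo_li
  rw [Module.finrank_fintype_fun_eq_card]
  simp [Fintype.card_finset]

theorem sum_two_pow_lt (u : Finset (Fin n)) : ∑ i ∈ u, 2 ^ (i : ℕ) < 2 ^ n := by
  have h1 : ∑ i ∈ u, 2 ^ (i : ℕ) ≤ ∑ i : Fin n, 2 ^ (i : ℕ) :=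
    Finset.sum_le_sum_of_subset (Finset.subset_univ u)
  have h2 : ∑ i : Fin n, 2 ^ (i : ℕ) = ∑ i ∈ Finset.range n, 2 ^ i :=
    Fin.sum_univ_eq_sum_range (fun i => 2 ^ i) n
  have h3 : ∑ i ∈ Finset.range n, 2 ^ i < 2 ^ n := by
    have h4 := Nat.geomSum_lt (m := 2) (n := n) (s := Finset.range n) le_rfl (fun k hk => Finset.mem_range.1 hk)
    exact h4
  omega

theorem wt_card {u v : Finset (Fin n)} (h : u.card < v.card) : wt u < wt v := by
  unfold wt
  have h1 := sum_two_pow_lt u
  have h2 : (u.card + 1) * 2 ^ n ≤ v.card * 2 ^ n := Nat.mul_le_mul_right _ h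
  rw [Nat.add_mul, Nat.one_mul] at h2
  omega

theorem wt_inj {u v : Finset (Fin n)} (h : wt u = wt v) : u = v := by
  have hc : u.card = v.card := by
    rcases Nat.lt_trichotomy u.card v.card with h1 | h1 | h1
    · exact absurd h (ne_of_lt (wt_card h1))
    · exact h1
    · exact absurd h.symm (ne_of_lt (wt_card h1))
  unfold wt at h
  rw [hc] at h
  have h2 : ∑ i ∈ u, 2 ^ (i : ℕ) = ∑ i ∈ v, 2 ^ (i : ℕ) := by omega
  have h3 : (u.map Fin.valEmbedding) = (v.map Fin.valEmbedding) := by
    have e : ∀ w : Finset (Fin n), ∑ i ∈ w, 2 ^ (i : ℕ) = ∑ i ∈ w.map Fin.valEmbedding, 2 ^ i := by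
      intro w
      rw [Finset.sum_map]
      rfl
    rw [e, e] at h2
    exact Finset.geomSum_injective le_rfl h2
  exact Finset.map_injective _ h3

theorem wt_mono {u v : Finset (Fin n)} (h : u ⊆ v) : wt u ≤ wt v := by
  unfold wt
  have h1 := Finset.card_le_card h
  have h2 : ∑ i ∈ u, 2 ^ (i : ℕ) ≤ ∑ i ∈ v, 2 ^ (i : ℕ) := Finset.sum_le_sum_of_subset h
  have h3 : u.card * 2 ^ n ≤ v.card * 2 ^ n := Nat.mul_le_mul_right _ h1
  omega

theorem card_of_wt {u v : Finset (Fin n)} (h : wt u ≤ wt v) : u.card ≤ v.card := by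
  by_contra hc
  exact absurd (wt_card (not_le.1 hc)) (not_lt.2 h)

end H3RE
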