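import Pool.Agent.H3.RE.Mo

/-!
Degrees of functions on the cube over `F_2` (helper3): products, affine functions, composition with affine maps, indicator
functions of affine subspaces and of clauses, dimension of `Pd`.
-/

set_option autoImplicit false
open scoped Classical
open Finset

namespace H3RE

variable {n : ℕ}

theorem mo_mem {u : Finset (Fin n)} {D : ℕ} (h : u.card ≤ D) : (mo u : Fn n) ∈ Pd n D :=
  Submodule.subset_span ⟨u, h, rfl⟩

theorem pd_mono {a b : ℕ} (h : a ≤ b) : Pd n a ≤ Pd n b := by
  unfold Pd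
  apply Submodule.span_mono
  rintro g ⟨u, hu, rfl⟩
  exact ⟨u, hu.trans h, rfl⟩

theorem pd_mul {a b : ℕ} {g h : Fn n} (hg : g ∈ Pd n a) (hh : h ∈ Pd n b) : g * h ∈ Pd n (a + b) := by
  unfold Pd at hg
  induction hg using Submodule.span_induction with
  | mem x hx =>
    obtain ⟨u, hu, rfl⟩ := hx
    unfold Pd at hh
    induction hh using Submodule.span_induction with
    | mem y hy =>
      obtain ⟨v, hv, rfl⟩ := hy
      rw [mo_mul]
      exact mo_mem ((Finset.card_union_le u v).trans (Nat.add_le_add hu hv))
    | zero => rw [mul_zero]; exact Submodule.zero_mem _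
    | add y z _ _ hy hz => rw [mul_add]; exact Submodule.add_mem _ hy hz
    | smul c y _ hy => rw [mul_smul_comm]; exact Submodule.smul_mem _ c hy
  | zero => rw [zero_mul]; exact Submodule.zero_mem _
  | add x y _ _ hx hy => rw [add_mul]; exact Submodule.add_mem _ hx hy
  | smul c x _ hx => rw [smul_mul_assoc]; exact Submodule.smul_mem _ c hx

theorem pd_one : (1 : Fn n) ∈ Pd n 0 := by
  rw [← mo_empty]
  exact mo_mem (by simp)

theorem pd_const (c : ZMod 2) : (fun _ => c : Fn n) ∈ Pd n 0 := by
  have h : (fun _ => c : Fn n) = c • (1 : Fn n) := by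
    funext x
    simp
  rw [h]
  exact Submodule.smul_mem _ c pd_one

theorem pd_coord (i : Fin n) : (fun x => x i : Fn n) ∈ Pd n 1 := by
  have h : (fun x => x i : Fn n) = mo {i} := by
    funext x
    simp [mo]
  rw [h]
  exact mo_mem (by simp)

theorem pd_aff (φ : (Fin n → ZMod 2) →ₗ[ZMod 2] ZMod 2) (c : ZMod 2) : (fun x => φ x + c : Fn n) ∈ Pd n 1 := by
  have h : (fun x => φ x + c : Fn n) = (∑ i, φ (Pi.single i 1) • (fun x => x i : Fn n)) + (fun _ => c) := by
    funext x
    rw [Pi.add_apply, Finset.sum_apply]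
    congr 1
    have hx : x = ∑ i, x i • (Pi.single i 1 : Fin n → ZMod 2) := by
      funext j
      rw [Finset.sum_apply, Finset.sum_eq_single j]
      · simp
      · intro b _ hb
        simp [Ne.symm hb]
      · intro hj
        exact absurd (Finset.mem_univ j) hj
    conv_lhs => rw [hx]
    rw [map_sum]
    apply Finset.sum_congr rfl
    intro i _
    rw [map_smul, smul_eq_mul, Pi.smul_apply, smul_eq_mul, mul_comm]
  rw [h]
  apply Submodule.add_mem
  · exact Submodule.sum_mem _ fun i _ => Submodule.smul_mem _ _ (pd_coord i)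
  · exact pd_mono (Nat.zero_le 1) (pd_const c)

theorem pd_prod {ι : Type} (s : Finset ι) (f : ι → Fn n) (d : ι → ℕ) (h : ∀ i ∈ s, f i ∈ Pd n (d i)) :
    ∏ i ∈ s, f i ∈ Pd n (∑ i ∈ s, d i) := by
  induction s using Finset.induction_on with
  | empty => rw [Finset.prod_empty, Finset.sum_empty]; exact pd_one
  | insert a s ha ih =>
    rw [Finset.prod_insert ha, Finset.sum_insert ha]
    exact pd_mul (h a (Finset.mem_insert_self a s)) (ih fun i hi => h i (Finset.mem_insert_of_mem hi))

/-- every function has degree at most `n` -/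
theorem pd_top : Pd n n = ⊤ := by
  rw [eq_top_iff, ← mo_span]
  apply Submodule.span_le.2
  rintro _ ⟨u, rfl⟩
  exact mo_mem ((Finset.card_le_univ u).trans (by simp))

/-- composition with a coordinatewise affine map does not raise the degree -/
theorem pd_comp {e D : ℕ} (φ : (Fin e → ZMod 2) → (Fin n → ZMod 2))
    (hφ : ∀ i, (fun z => φ z i : Fn e) ∈ Pd e 1) {g : Fn n} (hg : g ∈ Pd n D) :
    (fun z => g (φ z) : Fn e) ∈ Pd e D := by
  unfold Pd at hg
  induction hg using Submodule.span_induction with
  | mem x hx =>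
    obtain ⟨u, hu, rfl⟩ := hx
    have h : (fun z => mo u (φ z) : Fn e) = ∏ i ∈ u, (fun z => φ z i : Fn e) := by
      funext z
      rw [Finset.prod_apply]
      rfl
    rw [h]
    have h2 := pd_prod u (fun i => (fun z => φ z i : Fn e)) (fun _ => 1) (fun i _ => hφ i)
    rw [Finset.sum_const, smul_eq_mul, mul_one] at h2
    exact pd_mono hu h2
  | zero => exact Submodule.zero_mem _
  | add x y _ _ hx hy => exact Submodule.add_mem _ hx hy
  | smul c x _ hx => exact Submodule.smul_mem _ c hx

/-- the indicator function of a clause -/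
theorem fa_eq (S : Finset (Fin n)) (b : Fin n → ZMod 2) :
    fa S b = ∏ i ∈ S, (fun x => x i + (b i + 1) : Fn n) := by
  funext x
  rw [Finset.prod_apply]
  unfold fa Fal
  by_cases h : ∀ i ∈ S, x i = b i
  · rw [if_pos h]
    symm
    apply Finset.prod_eq_one
    intro i hi
    rw [h i hi]
    have : ∀ a : ZMod 2, a + (a + 1) = 1 := by decide
    exact this _
  · rw [if_neg h]
    push Not at h
    obtain ⟨i, hi, hne⟩ := h
    symm
    apply Finset.prod_eq_zero hi
    have : ∀ a c : ZMod 2, a ≠ c → a + (c + 1) = 0 := by decide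
    exact this _ _ hne

theorem fa_mem (S : Finset (Fin n)) (b : Fin n → ZMod 2) : fa S b ∈ Pd n S.card := by
  rw [fa_eq]
  have h2 := pd_prod S (fun i => (fun x => x i + (b i + 1) : Fn n)) (fun _ => 1) (fun i _ => by
    exact Submodule.add_mem _ (pd_coord i) (pd_mono (Nat.zero_le 1) (pd_const _)))
  rw [Finset.sum_const, smul_eq_mul, mul_one] at h2
  exact h2

/-- the monomials of a clause contain only variables of the clause -/
theorem fa_vars (S : Finset (Fin n)) (b : Fin n → ZMod 2) :
    fa S b ∈ Submodule.span (ZMod 2) {g : Fn n | ∃ v : Finset (Fin n), v ⊆ S ∧ g = mo v} := by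
  rw [fa_eq]
  induction S using Finset.induction_on with
  | empty =>
    rw [Finset.prod_empty, ← mo_empty]
    exact Submodule.subset_span ⟨∅, Finset.Subset.refl _, rfl⟩
  | insert a s ha ih =>
    rw [Finset.prod_insert ha]
    have h1 : (fun x => x a + (b a + 1) : Fn n) = mo {a} + (b a + 1) • (1 : Fn n) := by
      funext x
      simp [mo]
    rw [h1, add_mul, smul_mul_assoc, one_mul]
    apply Submodule.add_mem
    · generalize (∏ i ∈ s, (fun x => x i + (b i + 1) : Fn n)) = P at ih ⊢
      induction ih using Submodule.span_induction with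
      | mem y hy =>
        obtain ⟨v, hv, rfl⟩ := hy
        rw [mo_mul]
        refine Submodule.subset_span ⟨{a} ∪ v, ?_, rfl⟩
        intro i hi
        rcases Finset.mem_union.1 hi with h | h
        · rw [Finset.mem_singleton] at h
          rw [h]
          exact Finset.mem_insert_self a s
        · exact Finset.mem_insert_of_mem (hv h)
      | zero => rw [mul_zero]; exact Submodule.zero_mem _
      | add y z _ _ hy hz => rw [mul_add]; exact Submodule.add_mem _ hy hz
      | smul c y _ hy => rw [mul_smul_comm]; exact Submodule.smul_mem _ c hy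
    · apply Submodule.smul_mem
      refine Submodule.span_mono ?_ ih
      rintro g ⟨v, hv, rfl⟩
      exact ⟨v, hv.trans (Finset.subset_insert a s), rfl⟩

/-- the indicator function of an affine subspace of codimension `≤ r` has degree `≤ r` -/
theorem ind_mem (W : Submodule (ZMod 2) (Fin n → ZMod 2)) (x0 : Fin n → ZMod 2) {r : ℕ}
    (hr : n ≤ Module.finrank (ZMod 2) W + r) : ind {x | x - x0 ∈ W} ∈ Pd n r := by
  have hq : Module.finrank (ZMod 2) ((Fin n → ZMod 2) ⧸ W) ≤ r := by
    have h1 := Submodule.finrank_quotient_add_finrank W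
    rw [Module.finrank_fintype_fun_eq_card, Fintype.card_fin] at h1
    omega
  set e := Module.finrank (ZMod 2) ((Fin n → ZMod 2) ⧸ W) with he
  let B : Module.Basis (Fin e) (ZMod 2) ((Fin n → ZMod 2) ⧸ W) := Module.finBasis (ZMod 2) _
  have h1 : ind {x | x - x0 ∈ W} =
      ∏ i : Fin e, (fun x => (B.coord i ∘ₗ W.mkQ) x + (B.coord i (W.mkQ x0) + 1) : Fn n) := by
    funext x
    rw [Finset.prod_apply]
    unfold ind
    have hiff : x ∈ {x | x - x0 ∈ W} ↔ ∀ i, B.coord i (W.mkQ x) = B.coord i (W.mkQ x0) := by
      change x - x0 ∈ W ↔ _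
      rw [← Submodule.Quotient.mk_eq_zero, Submodule.Quotient.mk_sub, sub_eq_zero]
      constructor
      · intro h i
        have h' : W.mkQ x = W.mkQ x0 := h
        rw [h']
      · intro h
        exact B.ext_elem h
    by_cases h : x ∈ {x | x - x0 ∈ W}
    · rw [if_pos h]
      symm
      apply Finset.prod_eq_one
      intro i _
      have h3 := hiff.1 h i
      rw [LinearMap.comp_apply, h3]
      have : ∀ a : ZMod 2, a + (a + 1) = 1 := by decide
      exact this _
    · rw [if_neg h]
      rw [hiff] at h
      push Not at h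
      obtain ⟨i, hne⟩ := h
      symm
      apply Finset.prod_eq_zero (Finset.mem_univ i)
      rw [LinearMap.comp_apply]
      have : ∀ a c : ZMod 2, a ≠ c → a + (c + 1) = 0 := by decide
      exact this _ _ hne
  rw [h1]
  have h2 := pd_prod (Finset.univ : Finset (Fin e))
    (fun i => (fun x => (B.coord i ∘ₗ W.mkQ) x + (B.coord i (W.mkQ x0) + 1) : Fn n)) (fun _ => 1)
    (fun i _ => pd_aff _ _)
  rw [Finset.sum_const, smul_eq_mul, mul_one, Finset.card_univ, Fintype.card_fin] at h2
  exact pd_mono hq h2

/-- dimension of `Pd` -/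
theorem finrank_pd_le (e D : ℕ) : Module.finrank (ZMod 2) (Pd e D) ≤ ∑ i ∈ Finset.range (D + 1), e.choose i := by
  have h1 : Pd e D = Submodule.span (ZMod 2)
      (((Finset.univ.filter fun u : Finset (Fin e) => u.card ≤ D).image (fun u => (mo u : Fn e)) :
        Finset (Fn e)) : Set (Fn e)) := by
    unfold Pd
    congr 1
    ext g
    constructor
    · rintro ⟨u, hu, rfl⟩
      exact Finset.mem_coe.2 (Finset.mem_image.2 ⟨u, Finset.mem_filter.2 ⟨Finset.mem_univ _, hu⟩, rfl⟩)
    · intro h
      obtain ⟨u, hu, rfl⟩ := Finset.mem_image.1 (Finset.mem_coe.1 h)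
      exact ⟨u, (Finset.mem_filter.1 hu).2, rfl⟩
  rw [h1]
  refine (finrank_span_finset_le_card _).trans (Finset.card_image_le.trans ?_)
  have h2 : (Finset.univ.filter fun u : Finset (Fin e) => u.card ≤ D) ⊆
      (Finset.range (D + 1)).biUnion fun i => Finset.powersetCard i (Finset.univ : Finset (Fin e)) := by
    intro u hu
    rw [Finset.mem_filter] at hu
    rw [Finset.mem_biUnion]
    exact ⟨u.card, Finset.mem_range.2 (Nat.lt_succ_of_le hu.2), Finset.mem_powersetCard.2 ⟨Finset.subset_univ _, rfl⟩⟩
  refine (Finset.card_le_card h2).trans (Finset.card_biUnion_le.trans (le_of_eq ?_))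
  apply Finset.sum_congr rfl
  intro i _
  rw [Finset.card_powersetCard, Finset.card_univ, Fintype.card_fin]

end H3RE
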